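import Pool.Agent.W519.E.Stm

/-!
# The closure of the block diagonal matrix
-/

set_option autoImplicit false

namespace Pool.Agent.W131.RK

open Matrix Pool.Agent.W519.E
open Pool.Agent.W537.TT (vc clos)

noncomputable section

variable {S : Type} [DecidableEq S]

theorem big_nn (x : V S) : big x none none = x.1 := rfl

theorem big_ns (x : V S) (q : S × Fin 2) : big x none (some q) = 0 := rfl

theorem big_sn (x : V S) (p : S × Fin 2) : big x (some p) none = 0 := rfl

theorem big_ss (x : V S) (p q : S × Fin 2) :
    big x (some p) (some q) = if p.1 = q.1 then x.2 p.1 p.2 q.2 else 0 := rfl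

/-- the substitution -/
def sub (n : Option (S × Fin 2) × Option (S × Fin 2)) :
    MvPolynomial (Option (S × Fin 2 × Fin 2)) Kb :=
  match n.1, n.2 with
  | none, none => MvPolynomial.X none
  | some p, some q => if p.1 = q.1 then MvPolynomial.X (some (p.1, p.2, q.2)) else 0
  | _, _ => 0

theorem aeval_sub (x : V S) (n : Option (S × Fin 2) × Option (S × Fin 2)) :
    MvPolynomial.aeval (crd x) (sub n) = vc (big x) n := by
  obtain ⟨a, b⟩ := n
  cases a with
  | none =>
    cases b with
    | none =>
      change MvPolynomial.aeval (crd x) (MvPolynomial.X none) = x.1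
      rw [MvPolynomial.aeval_X]
      rfl
    | some q => exact map_zero _
  | some p =>
    cases b with
    | none => exact map_zero _
    | some q =>
      change MvPolynomial.aeval (crd x)
        (if p.1 = q.1 then MvPolynomial.X (some (p.1, p.2, q.2)) else 0) =
        if p.1 = q.1 then x.2 p.1 p.2 q.2 else 0
      split_ifs
      · rw [MvPolynomial.aeval_X]
        rfl
      · exact map_zero _

/-- the position of a coordinate -/
def pos (q : Option (S × Fin 2 × Fin 2)) : Option (S × Fin 2) × Option (S × Fin 2) :=
  match q with
  | none => (none, none)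
  | some r => (some (r.1, r.2.1), some (r.1, r.2.2))

theorem vc_pos (x : V S) : vc (big x) ∘ pos = crd x := by
  funext q
  cases q with
  | none => rfl
  | some r =>
    change (if r.1 = r.1 then x.2 r.1 r.2.1 r.2.2 else 0) = x.2 r.1 r.2.1 r.2.2
    rw [if_pos rfl]

theorem big_mul [Fintype S] (x y : V S) :
    big x * big y = big (x.1 * y.1, fun s => x.2 s * y.2 s) := by
  ext a b
  rw [Matrix.mul_apply, Fintype.sum_option]
  cases a with
  | none =>
    cases b with
    | none =>
      rw [Finset.sum_eq_zero fun q _ => by rw [big_ns, zero_mul], add_zero]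
      rfl
    | some q =>
      rw [big_ns y, mul_zero, zero_add, Finset.sum_eq_zero fun r _ => by rw [big_ns, zero_mul]]
      rfl
  | some p =>
    cases b with
    | none =>
      rw [big_sn x, zero_mul, zero_add, Finset.sum_eq_zero fun r _ => by rw [big_sn, mul_zero]]
      rfl
    | some q =>
      rw [big_sn x, zero_mul, zero_add, Fintype.sum_prod_type, Finset.sum_eq_single p.1]
      · rw [big_ss]
        change ∑ k : Fin 2, (if p.1 = p.1 then x.2 p.1 p.2 k else 0) *
          (if p.1 = q.1 then y.2 p.1 k q.2 else 0) =
          if p.1 = q.1 then (x.2 p.1 * y.2 p.1) p.2 q.2 else 0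
        by_cases h : p.1 = q.1
        · simp only [if_pos h, if_true]
          rw [Matrix.mul_apply]
        · simp only [if_neg h, mul_zero, Finset.sum_const_zero]
      · intro s _ hs
        refine Finset.sum_eq_zero fun k _ => ?_
        rw [big_ss, if_neg (fun h => hs h.symm), zero_mul]
      · intro h
        exact absurd (Finset.mem_univ _) h

theorem big_one : big ((1, fun _ => 1) : V S) = 1 := by
  ext a b
  cases a with
  | none =>
    cases b with
    | none => rfl
    | some q => rfl
  | some p =>
    cases b with
    | none => rfl
    | some q =>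
      rw [big_ss]
      obtain ⟨s, i⟩ := p
      obtain ⟨t, j⟩ := q
      change (if s = t then (1 : Matrix (Fin 2) (Fin 2) ℂ) i j else 0) =
        (1 : Matrix (Option (S × Fin 2)) (Option (S × Fin 2)) ℂ) (some (s, i)) (some (t, j))
      by_cases h : s = t
      · subst h
        rw [if_pos rfl]
        by_cases hij : i = j
        · subst hij
          rw [Matrix.one_apply_eq, Matrix.one_apply_eq]
        · rw [Matrix.one_apply_ne hij, Matrix.one_apply_ne (fun h => hij (by simpa using h))]
      · rw [if_neg h, Matrix.one_apply_ne (fun h' => h (by simp at h'; exact h'.1))]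

theorem big_inv [Fintype S] (c : V S) (hc : Inv c) :
    (big c)⁻¹ = big (c.1⁻¹, fun s => (c.2 s)⁻¹) := by
  apply Matrix.inv_eq_right_inv
  rw [big_mul, ← big_one]
  congr 1
  refine Prod.ext (mul_inv_cancel₀ hc.1) ?_
  funext s
  exact Matrix.mul_nonsing_inv _ (isUnit_iff_ne_zero.2 (hc.2 s))

theorem big_map (c : V S) (D : Derivation ℤ ℂ ℂ) :
    (big c).map D = big (D c.1, fun s => (c.2 s).map D) := by
  ext a b
  cases a with
  | none =>
    cases b with
    | none => rfl
    | some q => exact map_zero D
  | some p =>
    cases b with
    | none => exact map_zero D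
    | some q =>
      rw [Matrix.map_apply, big_ss, big_ss]
      split_ifs
      · rfl
      · exact map_zero D

theorem t : Pool.Agent.W519.E.CLO := by
  intro S _ _ c hc
  refine ⟨?_, ?_, ?_⟩
  · intro x
    constructor
    · intro hx p hp
      have key : ∀ y : V S, MvPolynomial.aeval (crd y) (MvPolynomial.aeval sub p) =
          MvPolynomial.aeval (vc (big y)) p := by
        intro y
        rw [MvPolynomial.comp_aeval_apply]
        congr 2
        funext n
        exact aeval_sub y n
      have h1 := hx (MvPolynomial.aeval sub p) (by rw [key]; exact hp)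
      rw [key] at h1
      exact h1
    · intro hx q hq
      have key : ∀ y : V S, MvPolynomial.aeval (vc (big y)) (MvPolynomial.rename pos q) =
          MvPolynomial.aeval (crd y) q := by
        intro y
        rw [MvPolynomial.aeval_rename, vc_pos]
      have h1 := hx (MvPolynomial.rename pos q) (by rw [key]; exact hq)
      rw [key] at h1
      exact h1
  · intro M hM
    have h0 : ∀ a b, big c a b = 0 → M a b = 0 := by
      intro a b hab
      have h1 := hM (MvPolynomial.X (a, b)) (by rw [MvPolynomial.aeval_X]; exact hab)
      rw [MvPolynomial.aeval_X] at h1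
      exact h1
    refine ⟨(M none none, fun s => Matrix.of fun i j => M (some (s, i)) (some (s, j))), ?_⟩
    ext a b
    cases a with
    | none =>
      cases b with
      | none => rfl
      | some q =>
        rw [big_ns]
        exact h0 _ _ rfl
    | some p =>
      cases b with
      | none =>
        rw [big_sn]
        exact h0 _ _ rfl
      | some q =>
        rw [big_ss]
        obtain ⟨s, i⟩ := p
        obtain ⟨t, j⟩ := q
        by_cases h : s = t
        · subst h
          rw [if_pos rfl]
          rfl
        · rw [if_neg h]
          exact h0 _ _ (if_neg h)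
  · intro M
    have key : ∀ D : Derivation ℤ ℂ ℂ, (big c)⁻¹ * (big c).map D =
        big (c.1⁻¹ * D c.1, fun s => (c.2 s)⁻¹ * (c.2 s).map D) := by
      intro D
      rw [big_inv c hc, big_map, big_mul]
    constructor
    · rintro ⟨D, rfl⟩
      exact ⟨_, ⟨D, rfl, fun s => rfl⟩, key D⟩
    · rintro ⟨x, ⟨D, hD1, hD2⟩, rfl⟩
      refine ⟨D, ?_⟩
      rw [key D]
      congr 1
      exact Prod.ext hD1 (funext hD2)

end

end Pool.Agent.W131.RK
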